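import Pool.Agent.W626.FR.Stms

/-!
# Frog model, recurrence: pairs of children when few of the others are good
-/

namespace Pool.Agent.W616.FR

open MeasureTheory ProbabilityTheory Filter FrogGW FrogRec
open scoped ENNReal NNReal Classical Topology

lemma prodint {X : Type} [MeasurableSpace X] (m : Measure X) [IsProbabilityMeasure m]
    (s : Finset ℕ) (F : ℕ → X → ℝ≥0∞) (hF : ∀ l, Measurable (F l)) :
    ∫⁻ Y, ∏ l ∈ s, F l (Y l) ∂(Measure.infinitePi fun _ : ℕ => m) =
      ∏ l ∈ s, ∫⁻ x, F l x ∂m := by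
  have h1 : iIndepFun (fun (l : ℕ) (Y : ℕ → X) => F l (Y l))
      (Measure.infinitePi fun _ : ℕ => m) := iIndepFun_infinitePi hF
  rw [lintegral_prod_eq_prod_lintegral_of_indepFun s (fun (l : ℕ) (Y : ℕ → X) => F l (Y l)) h1
    (fun l => (hF l).comp (measurable_pi_apply l))]
  refine Finset.prod_congr rfl fun l _ => ?_
  exact (measurePreserving_eval_infinitePi (fun _ : ℕ => m) l).lintegral_comp (hF l)

lemma prod3 {M : Type} [CommMonoid M] (k i j : ℕ) (hi : i < k) (hj : j < k) (hij : i ≠ j)
    (a b : M) (g : ℕ → M) :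
    ∏ l ∈ Finset.range k, (if l = i then a else if l = j then b else g l) =
      a * b * ∏ l ∈ ((Finset.range k).erase i).erase j, g l := by
  rw [← Finset.mul_prod_erase (Finset.range k) _ (Finset.mem_range.mpr hi)]
  rw [← Finset.mul_prod_erase ((Finset.range k).erase i) _
    (Finset.mem_erase.mpr ⟨hij.symm, Finset.mem_range.mpr hj⟩)]
  rw [if_pos rfl, if_neg hij.symm, if_pos rfl, ← mul_assoc]
  congr 1
  refine Finset.prod_congr rfl fun l hl => ?_
  rw [Finset.mem_erase, Finset.mem_erase] at hl
  rw [if_neg hl.2.1, if_neg hl.1]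

/-- the weight of one child -/
noncomputable def ph {X : Type} (gd : Set X) (x : X) : ℝ≥0∞ :=
  if x ∈ gd then ENNReal.ofReal (Real.exp (-1)) else 1

lemma ph_meas {X : Type} [MeasurableSpace X] (gd : Set X) (h : MeasurableSet gd) :
    Measurable (ph gd) := Measurable.ite h measurable_const measurable_const

lemma ph_int {X : Type} [MeasurableSpace X] (m : Measure X) [IsProbabilityMeasure m] (gd : Set X)
    (h : MeasurableSet gd) (pg : ℝ) (hm : ENNReal.ofReal pg ≤ m gd) :
    ∫⁻ x, ph gd x ∂m ≤ ENNReal.ofReal (Real.exp (-(63 / 100 * pg))) := by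
  have h1 : ∫⁻ x, ph gd x ∂m =
      ENNReal.ofReal (Real.exp (-1)) * m gd + m gdᶜ := by
    rw [← lintegral_add_compl _ h]
    congr 1
    · rw [setLIntegral_congr_fun h (g := fun _ => ENNReal.ofReal (Real.exp (-1)))
        (fun x hx => by simp only [ph]; rw [if_pos hx])]
      rw [setLIntegral_const]
    · rw [setLIntegral_congr_fun h.compl (g := fun _ => (1 : ℝ≥0∞))
        (fun x hx => by simp only [ph]; rw [if_neg hx])]
      rw [setLIntegral_const, one_mul]
  obtain ⟨q, hq⟩ : ∃ q : ℝ, q = (m gd).toReal := ⟨_, rfl⟩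
  have hq0 : 0 ≤ q := by rw [hq]; exact ENNReal.toReal_nonneg
  have hq1 : q ≤ 1 := by
    rw [hq]
    exact ENNReal.toReal_le_of_le_ofReal (by norm_num) (by rw [ENNReal.ofReal_one]; exact prob_le_one)
  have hmq : m gd = ENNReal.ofReal q := by
    rw [hq, ENNReal.ofReal_toReal (measure_ne_top m gd)]
  have hmc : m gdᶜ = ENNReal.ofReal (1 - q) := by
    rw [prob_compl_eq_one_sub h, hmq, ENNReal.ofReal_sub _ hq0, ENNReal.ofReal_one]
  have hpq : pg ≤ q := by
    rw [hmq] at hm
    exact (ENNReal.ofReal_le_ofReal_iff hq0).mp hm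
  rw [h1, hmc, hmq, ← ENNReal.ofReal_mul (Real.exp_pos _).le,
    ← ENNReal.ofReal_add (by positivity) (by linarith)]
  apply ENNReal.ofReal_le_ofReal
  have h2 : Real.exp (-1) ≤ 37 / 100 := by
    have := Real.exp_neg_one_lt_d9
    linarith
  have h3 : 1 + -(63 / 100 * pg) ≤ Real.exp (-(63 / 100 * pg)) := by
    have := Real.add_one_le_exp (-(63 / 100 * pg))
    linarith
  nlinarith

lemma sqexp (a x : ℝ) (ha : 0 < a) (hx : 0 ≤ x) : x ^ 2 * Real.exp (-(a * x)) ≤ 2 / a ^ 2 := by
  rw [Real.exp_neg, ← div_eq_mul_inv, div_le_div_iff₀ (Real.exp_pos _) (by positivity)]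
  have h1 := Real.quadratic_le_exp_of_nonneg (mul_nonneg ha.le hx)
  have h2 : 0 ≤ a * x := mul_nonneg ha.le hx
  nlinarith

theorem atyp : TaskAtyp := by
  intro pg hp hp1
  have hlam : 0 < Real.log (10 / 7) := Real.log_pos (by norm_num)
  obtain ⟨c, hc⟩ : ∃ c : ℝ, c = Real.exp (151 / 100 * pg) * (2 / (38 / 100 * pg) ^ 2) +
    2 / (Real.log (10 / 7) * pg / 4) ^ 2 := ⟨_, rfl⟩
  have hc0 : 0 ≤ c := by rw [hc]; positivity
  refine ⟨c.toNNReal, ?_⟩
  intro X _ m _ gd p _ f h hgd hm hf hh
  have key : ∀ k : ℕ, ∫⁻ Y, ∑ i ∈ Finset.range k, ∑ j ∈ (Finset.range k).erase i,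
      f (Y i) * h (Y j) *
        ((if (((((Finset.range k).erase i).erase j).filter fun l => Y l ∈ gd).card : ℝ) *
            (4 / pg) < 1 + k then 1 else 0) +
          ENNReal.ofReal ((7 / 10 : ℝ) ^ ((1 + (k : ℝ)) / (4 / pg))))
        ∂(Measure.infinitePi fun _ : ℕ => m) ≤
      (c.toNNReal : ℝ≥0∞) * (∫⁻ x, f x ∂m) * ∫⁻ x, h x ∂m := by
    intro k
    obtain ⟨v, hv⟩ : ∃ v : ℝ, v = (1 + (k : ℝ)) * pg / 4 := ⟨_, rfl⟩
    have hv' : (1 + (k : ℝ)) / (4 / pg) = v := by rw [hv]; field_simp
    rw [hv']
    obtain ⟨ck, hck⟩ : ∃ ck : ℝ≥0∞, ck = ENNReal.ofReal ((7 / 10 : ℝ) ^ v) := ⟨_, rfl⟩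
    rw [← hck]
    -- pointwise bound
    have hpt : ∀ (Y : ℕ → X) (i j : ℕ),
        f (Y i) * h (Y j) *
        ((if (((((Finset.range k).erase i).erase j).filter fun l => Y l ∈ gd).card : ℝ) *
            (4 / pg) < 1 + k then 1 else 0) + ck) ≤
        ENNReal.ofReal (Real.exp v) *
          (f (Y i) * h (Y j) * ∏ l ∈ ((Finset.range k).erase i).erase j, ph gd (Y l)) +
          ck * (f (Y i) * h (Y j) * ∏ l ∈ ((Finset.range k).erase i).erase j, (1 : ℝ≥0∞)) := by
      intro Y i j
      rw [mul_add, Finset.prod_const_one, mul_one, mul_comm ck]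
      refine add_le_add ?_ le_rfl
      rw [mul_comm (ENNReal.ofReal (Real.exp v)), mul_assoc (f (Y i) * h (Y j))]
      refine mul_le_mul' le_rfl ?_
      split_ifs with hcond
      · have h1 : ∏ l ∈ ((Finset.range k).erase i).erase j, ph gd (Y l) =
            ENNReal.ofReal (Real.exp (-1)) ^
              ((((Finset.range k).erase i).erase j).filter fun l => Y l ∈ gd).card := by
          unfold ph
          rw [Finset.prod_ite, Finset.prod_const, Finset.prod_const_one, mul_one]
        rw [h1, ← ENNReal.ofReal_pow (Real.exp_pos _).le, ← ENNReal.ofReal_mul (by positivity),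
          ← ENNReal.ofReal_one]
        apply ENNReal.ofReal_le_ofReal
        rw [← Real.exp_nat_mul, ← Real.exp_add]
        apply Real.one_le_exp
        have h2 : (((((Finset.range k).erase i).erase j).filter fun l => Y l ∈ gd).card : ℝ) ≤
            v := by
          rw [hv]
          have h3 : (((((Finset.range k).erase i).erase j).filter fun l => Y l ∈ gd).card : ℝ) =
              (((((Finset.range k).erase i).erase j).filter fun l => Y l ∈ gd).card : ℝ) *
                (4 / pg) * pg / 4 := by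
            field_simp
          rw [h3]
          have h4 := mul_le_mul_of_nonneg_right hcond.le hp.le
          linarith
        linarith
      · exact zero_le
    have hFm : ∀ (g : X → ℝ≥0∞), Measurable g → ∀ (i j : ℕ),
        ∀ l : ℕ, Measurable (if l = i then f else if l = j then h else g) := by
      intro g hg i j l
      split_ifs
      · exact hf
      · exact hh
      · exact hg
    have hE : ∀ (g : X → ℝ≥0∞), Measurable g → ∀ (i j : ℕ), i < k → j < k → i ≠ j →
        ∫⁻ Y, (f (Y i) * h (Y j) * ∏ l ∈ ((Finset.range k).erase i).erase j, g (Y l))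
          ∂(Measure.infinitePi fun _ : ℕ => m) =
        (∫⁻ x, f x ∂m) * (∫⁻ x, h x ∂m) * (∫⁻ x, g x ∂m) ^ (k - 2) := by
      intro g hg i j hi hj hij
      have h1 := prodint m (Finset.range k) (fun l => if l = i then f else if l = j then h else g)
        (hFm g hg i j)
      have h2 : ∀ Y : ℕ → X, ∏ l ∈ Finset.range k,
          (if l = i then f else if l = j then h else g) (Y l) =
          f (Y i) * h (Y j) * ∏ l ∈ ((Finset.range k).erase i).erase j, g (Y l) := by
        intro Y
        rw [← prod3 k i j hi hj hij (f (Y i)) (h (Y j)) (fun l => g (Y l))]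
        refine Finset.prod_congr rfl fun l _ => ?_
        split_ifs with ha hb
        · rw [ha]
        · rw [hb]
        · rfl
      have h3 : ∏ l ∈ Finset.range k,
          ∫⁻ x, (if l = i then f else if l = j then h else g) x ∂m =
          (∫⁻ x, f x ∂m) * (∫⁻ x, h x ∂m) * (∫⁻ x, g x ∂m) ^ (k - 2) := by
        have h4 : (((Finset.range k).erase i).erase j).card = k - 2 := by
          rw [Finset.card_erase_of_mem (Finset.mem_erase.mpr ⟨hij.symm, Finset.mem_range.mpr hj⟩),
            Finset.card_erase_of_mem (Finset.mem_range.mpr hi), Finset.card_range]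
          omega
        rw [← h4, ← Finset.prod_const]
        rw [← prod3 k i j hi hj hij (∫⁻ x, f x ∂m) (∫⁻ x, h x ∂m) (fun _ => ∫⁻ x, g x ∂m)]
        refine Finset.prod_congr rfl fun l _ => ?_
        split_ifs <;> rfl
      rw [← h3, ← h1]
      exact lintegral_congr fun Y => (h2 Y).symm
    have hmeas : ∀ (g : X → ℝ≥0∞), Measurable g → ∀ (i j : ℕ),
        Measurable fun Y : ℕ → X =>
          f (Y i) * h (Y j) * ∏ l ∈ ((Finset.range k).erase i).erase j, g (Y l) := by
      intro g hg i j
      refine Measurable.mul (Measurable.mul (hf.comp (measurable_pi_apply i))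
        (hh.comp (measurable_pi_apply j))) ?_
      exact Finset.measurable_fun_prod _ fun l _ => hg.comp (measurable_pi_apply l)
    have hph := ph_meas gd hgd
    have hone : Measurable fun _ : X => (1 : ℝ≥0∞) := measurable_const
    have hterm : ∀ i ∈ Finset.range k, ∀ j ∈ (Finset.range k).erase i,
        ∫⁻ Y, (ENNReal.ofReal (Real.exp v) *
          (f (Y i) * h (Y j) * ∏ l ∈ ((Finset.range k).erase i).erase j, ph gd (Y l)) +
          ck * (f (Y i) * h (Y j) * ∏ l ∈ ((Finset.range k).erase i).erase j, (1 : ℝ≥0∞)))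
          ∂(Measure.infinitePi fun _ : ℕ => m) ≤
        ENNReal.ofReal (Real.exp (pg * (151 / 100 - 38 / 100 * k)) + (7 / 10 : ℝ) ^ v) *
          ((∫⁻ x, f x ∂m) * ∫⁻ x, h x ∂m) := by
      intro i hi j hj
      rw [Finset.mem_erase, Finset.mem_range] at hj
      rw [Finset.mem_range] at hi
      have hk2 : 2 ≤ k := by
        rcases Nat.lt_or_ge k 2 with h1 | h1
        · exfalso
          have h2 : i = 0 := by omega
          have h3 : j = 0 := by omega
          exact hj.1 (by rw [h2, h3])
        · exact h1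
      rw [lintegral_add_left ((hmeas _ hph i j).const_mul _),
        lintegral_const_mul _ (hmeas _ hph i j), lintegral_const_mul _ (hmeas _ hone i j),
        hE _ hph i j hi hj.2 (Ne.symm hj.1), hE _ hone i j hi hj.2 (Ne.symm hj.1)]
      rw [lintegral_const, measure_univ, mul_one, one_pow, mul_one, hck,
        ENNReal.ofReal_add (Real.exp_pos _).le (by positivity), add_mul]
      refine add_le_add ?_ le_rfl
      rw [mul_comm ((∫⁻ x, f x ∂m) * ∫⁻ x, h x ∂m), ← mul_assoc]
      refine mul_le_mul' ?_ le_rfl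
      calc ENNReal.ofReal (Real.exp v) * (∫⁻ x, ph gd x ∂m) ^ (k - 2)
          ≤ ENNReal.ofReal (Real.exp v) *
            (ENNReal.ofReal (Real.exp (-(63 / 100 * pg)))) ^ (k - 2) := by
            gcongr
            exact ph_int m gd hgd pg hm
        _ = ENNReal.ofReal (Real.exp (pg * (151 / 100 - 38 / 100 * k))) := by
            rw [← ENNReal.ofReal_pow (Real.exp_pos _).le, ← ENNReal.ofReal_mul (by positivity),
              ← Real.exp_nat_mul, ← Real.exp_add]
            congr 2
            rw [hv, Nat.cast_sub hk2]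
            push_cast
            ring
    have hGm : ∀ i j : ℕ, Measurable fun Y : ℕ → X => (ENNReal.ofReal (Real.exp v) *
          (f (Y i) * h (Y j) * ∏ l ∈ ((Finset.range k).erase i).erase j, ph gd (Y l)) +
          ck * (f (Y i) * h (Y j) * ∏ l ∈ ((Finset.range k).erase i).erase j, (1 : ℝ≥0∞))) := by
      intro i j
      exact ((hmeas _ hph i j).const_mul _).add ((hmeas _ hone i j).const_mul _)
    calc _ ≤ ∫⁻ Y, ∑ i ∈ Finset.range k, ∑ j ∈ (Finset.range k).erase i,
          (ENNReal.ofReal (Real.exp v) *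
          (f (Y i) * h (Y j) * ∏ l ∈ ((Finset.range k).erase i).erase j, ph gd (Y l)) +
          ck * (f (Y i) * h (Y j) * ∏ l ∈ ((Finset.range k).erase i).erase j, (1 : ℝ≥0∞)))
          ∂(Measure.infinitePi fun _ : ℕ => m) := by
          apply lintegral_mono
          intro Y
          exact Finset.sum_le_sum fun i _ => Finset.sum_le_sum fun j _ => hpt Y i j
      _ = ∑ i ∈ Finset.range k, ∑ j ∈ (Finset.range k).erase i,
          ∫⁻ Y, (ENNReal.ofReal (Real.exp v) *
          (f (Y i) * h (Y j) * ∏ l ∈ ((Finset.range k).erase i).erase j, ph gd (Y l)) +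
          ck * (f (Y i) * h (Y j) * ∏ l ∈ ((Finset.range k).erase i).erase j, (1 : ℝ≥0∞)))
          ∂(Measure.infinitePi fun _ : ℕ => m) := by
          rw [lintegral_finsetSum]
          · refine Finset.sum_congr rfl fun i _ => ?_
            rw [lintegral_finsetSum]
            exact fun j _ => hGm i j
          · exact fun i _ => Finset.measurable_fun_sum _ fun j _ => hGm i j
      _ ≤ ∑ i ∈ Finset.range k, ∑ j ∈ (Finset.range k).erase i,
          ENNReal.ofReal (Real.exp (pg * (151 / 100 - 38 / 100 * k)) + (7 / 10 : ℝ) ^ v) *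
          ((∫⁻ x, f x ∂m) * ∫⁻ x, h x ∂m) :=
          Finset.sum_le_sum fun i hi => Finset.sum_le_sum fun j hj => hterm i hi j hj
      _ ≤ ∑ i ∈ Finset.range k, ∑ j ∈ Finset.range k,
          ENNReal.ofReal (Real.exp (pg * (151 / 100 - 38 / 100 * k)) + (7 / 10 : ℝ) ^ v) *
          ((∫⁻ x, f x ∂m) * ∫⁻ x, h x ∂m) :=
          Finset.sum_le_sum fun i _ => Finset.sum_le_sum_of_subset (Finset.erase_subset _ _)
      _ = ((k : ℝ≥0∞) * (k : ℝ≥0∞) *
          ENNReal.ofReal (Real.exp (pg * (151 / 100 - 38 / 100 * k)) + (7 / 10 : ℝ) ^ v)) *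
          ((∫⁻ x, f x ∂m) * ∫⁻ x, h x ∂m) := by
          rw [Finset.sum_const, Finset.sum_const, Finset.card_range, nsmul_eq_mul, nsmul_eq_mul]
          ring
      _ ≤ (c.toNNReal : ℝ≥0∞) * ((∫⁻ x, f x ∂m) * ∫⁻ x, h x ∂m) := by
          refine mul_le_mul' ?_ le_rfl
          have hkk : (k : ℝ≥0∞) = ENNReal.ofReal (k : ℝ) := (ENNReal.ofReal_natCast k).symm
          rw [hkk, ← ENNReal.ofReal_mul (by positivity), ← ENNReal.ofReal_mul (by positivity)]
          show _ ≤ ENNReal.ofReal c
          apply ENNReal.ofReal_le_ofReal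
          rw [mul_add, hc]
          have hk0 : (0 : ℝ) ≤ k := Nat.cast_nonneg k
          refine add_le_add ?_ ?_
          · have h1 := sqexp (38 / 100 * pg) k (by positivity) hk0
            have h2 : Real.exp (pg * (151 / 100 - 38 / 100 * k)) =
                Real.exp (151 / 100 * pg) * Real.exp (-(38 / 100 * pg * k)) := by
              rw [← Real.exp_add]
              congr 1
              ring
            rw [h2]
            calc (k : ℝ) * k * (Real.exp (151 / 100 * pg) * Real.exp (-(38 / 100 * pg * k)))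
                = Real.exp (151 / 100 * pg) * ((k : ℝ) ^ 2 * Real.exp (-(38 / 100 * pg * k))) := by
                  ring
              _ ≤ _ := mul_le_mul_of_nonneg_left h1 (Real.exp_pos _).le
          · have h1 := sqexp (Real.log (10 / 7) * pg / 4) k (by positivity) hk0
            have h2 : (7 / 10 : ℝ) ^ v ≤ Real.exp (-(Real.log (10 / 7) * pg / 4 * k)) := by
              rw [Real.rpow_def_of_pos (by norm_num)]
              apply Real.exp_le_exp.mpr
              have h3 : Real.log (7 / 10 : ℝ) = -Real.log (10 / 7) := by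
                rw [← Real.log_inv]
                congr 1
                norm_num
              rw [h3, hv]
              nlinarith [mul_pos hlam hp]
            calc (k : ℝ) * k * (7 / 10 : ℝ) ^ v
                ≤ (k : ℝ) * k * Real.exp (-(Real.log (10 / 7) * pg / 4 * k)) :=
                  mul_le_mul_of_nonneg_left h2 (by positivity)
              _ = (k : ℝ) ^ 2 * Real.exp (-(Real.log (10 / 7) * pg / 4 * k)) := by ring
              _ ≤ _ := h1
      _ = _ := by rw [mul_assoc]
  calc _ ≤ ∫⁻ _ : ℕ, (c.toNNReal : ℝ≥0∞) * (∫⁻ x, f x ∂m) * ∫⁻ x, h x ∂m ∂p :=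
        lintegral_mono fun k => key k
    _ = _ := by rw [lintegral_const, measure_univ, mul_one]

end Pool.Agent.W616.FR
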